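import Pool.Agent.Helper14.FO.Defs

set_option autoImplicit false

namespace Pool.Agent.Helper14.FO

open Finset

theorem rns_ti (N D : ℕ) : TI (BG N D) := by
  intro a b g
  have h : hammingDist (a + g) (b + g) = hammingDist a b := by
    unfold hammingDist
    congr 1
    ext i
    simp
  show (a + g ≠ b + g ∧ hammingDist (a + g) (b + g) = D) ↔ (a ≠ b ∧ hammingDist a b = D)
  rw [h]
  simp

theorem rns_ind (h2 : ST_FW) (N r P : ℕ) (hP : P.Prime) (hP2 : 2 < P) (hN : N < 4 * P)
    (hr : N - r = 2 * P) (I : Finset (Fin N → ZMod 2)) (hI : Ind (BG N (N - r)) I) :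
    I.card ≤ 2 * ∑ i ∈ range P, N.choose i := by
  refine h2 N P hP hP2 hN I ?_
  intro x hx y hy h
  refine hI x hx y hy ⟨?_, by rw [hr]; exact h⟩
  intro hxy
  subst hxy
  rw [hammingDist_self] at h
  omega

theorem rns_mono {V : Type} [Fintype V] [DecidableEq V] (X : SimpleGraph V) (M M' : ℝ)
    (hM : M ≤ M') (h : Cert X M) : Cert X M' := by
  obtain ⟨A, h1, h2, h3, h4⟩ := h
  refine ⟨A, h1, h2, ?_, h4⟩
  have e : A + M' • (1 : Matrix V V ℝ) = (A + M • (1 : Matrix V V ℝ)) +
      (M' - M) • (1 : Matrix V V ℝ) := by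
    rw [sub_smul]
    abel
  rw [e]
  exact h3.add (Matrix.PosSemidef.one.smul (by linarith))

theorem st_ROOT (h1 : ST_BCE) (h2 : ST_FW) (h3 : ST_VEC) (h6 : ST_DENB) : ST_ROOT := by
  intro a b ha hab hb
  obtain ⟨N, r, P, hP, hP2, hN, hr, hr1, hr8, hMa, hMb, hs⟩ :=
    h6 a b (1 / 20) ha hab hb (by norm_num)
  have hN0 : (0 : ℝ) < N := by
    have : 0 < N := by omega
    exact_mod_cast this
  have hr0 : (1 : ℝ) ≤ r := by exact_mod_cast hr1
  refine ⟨{ G := Fin N → ZMod 2
            R := BG N (N - r)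
            M := 1 - 2 * (r : ℝ) / N
            ti := rns_ti N (N - r)
            ind := ?_
            cert := h1 N r hr1 hr8 (by rw [hr]; exact even_two_mul P)
            upt := h3 N r (by omega)
            lo := by linarith
            hi := ?_ }, hMa, hMb⟩
  · intro I hI
    have h := rns_ind h2 N r P hP hP2 hN hr I hI
    have h' : (I.card : ℝ) ≤ 2 * ((∑ i ∈ range P, N.choose i : ℕ) : ℝ) := by exact_mod_cast h
    have hc : Fintype.card (Fin N → ZMod 2) = 2 ^ N := by
      rw [Fintype.card_fun, ZMod.card, Fintype.card_fin]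
    rw [hc]
    have h5 : (0 : ℝ) < 2 ^ N := by positivity
    have : (10 : ℝ) * I.card < 2 ^ N := by linarith
    exact_mod_cast this
  · have : 0 < 2 * (r : ℝ) / N := by positivity
    linarith

theorem st_NEXT (h1 : ST_BCE) (h2 : ST_FW) (h3 : ST_VEC) (h4 : ST_TEN) (h5 : ST_PIG)
    (h6 : ST_DENB) : ST_NEXT := by
  intro X a b ha hab hb
  have hlo := X.lo
  have hcG : 0 < Fintype.card X.G := Fintype.card_pos
  have hcG' : (0 : ℝ) < Fintype.card X.G := by exact_mod_cast hcG
  obtain ⟨N, r, P, hP, hP2, hN, hr, hr1, hr8, hMa, hMb, hs⟩ :=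
    h6 a b (1 / (20 * 2 ^ Fintype.card X.G * Fintype.card X.G)) (by linarith) hab hb (by positivity)
  have hN0 : (0 : ℝ) < N := by
    have : 0 < N := by omega
    exact_mod_cast this
  have hr0 : (1 : ℝ) ≤ r := by exact_mod_cast hr1
  have hM0 : 0 < 2 * (r : ℝ) / N := by positivity
  have hB : Cert (BG N (N - r)) (1 - 2 * (r : ℝ) / N) :=
    h1 N r hr1 hr8 (by rw [hr]; exact even_two_mul P)
  have hX : Cert X.R (1 - 2 * (r : ℝ) / N) := rns_mono X.R X.M _ (by linarith) X.cert
  refine ⟨{ G := (Fin N → ZMod 2) × X.G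
            R := Ten (BG N (N - r)) X.R
            M := 1 - 2 * (r : ℝ) / N
            ti := ?_
            ind := ?_
            cert := h4 _ _ _ _ _ (by linarith) (by linarith) hB hX
            upt := ?_
            lo := by linarith
            hi := by linarith }, hMa, hMb, Prod.snd, fun x y h => h.2⟩
  · intro x y g
    exact and_congr (rns_ti N (N - r) x.1 y.1 g.1) (X.ti x.2 y.2 g.2)
  · intro I hI
    have hρ : ∀ J : Finset X.G, Ind X.R J → J.card ≤ (Fintype.card X.G - 1) / 10 := by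
      intro J hJ
      have := X.ind J hJ
      omega
    have h := h5 _ _ (BG N (N - r)) X.R _ _ (rns_ind h2 N r P hP hP2 hN hr) hρ I hI
    have hc : Fintype.card (Fin N → ZMod 2) = 2 ^ N := by
      rw [Fintype.card_fun, ZMod.card, Fintype.card_fin]
    rw [Fintype.card_prod, hc]
    rw [hc] at h
    have hq : 10 * ((Fintype.card X.G - 1) / 10) + 1 ≤ Fintype.card X.G := by omega
    generalize (Fintype.card X.G - 1) / 10 = ρ at h hq
    generalize Fintype.card X.G = c at h hq hs hcG hcG' ⊢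
    have h' : (I.card : ℝ) ≤ 2 ^ N * ρ + 2 ^ c * (2 * ((∑ i ∈ range P, N.choose i : ℕ) : ℝ)) * c := by
      exact_mod_cast h
    have hq' : 10 * (ρ : ℝ) + 1 ≤ c := by exact_mod_cast hq
    have h5' : (0 : ℝ) < 2 ^ N := by positivity
    have h6' : (0 : ℝ) < 2 ^ c := by positivity
    have h7 : 2 ^ c * (2 * ((∑ i ∈ range P, N.choose i : ℕ) : ℝ)) * c ≤ 2 ^ N / 20 := by
      have e : (2 : ℝ) ^ N / 20 = 2 ^ c * (1 / (20 * 2 ^ c * c) * 2 ^ N) * c := by
        field_simp
      rw [e]
      exact mul_le_mul_of_nonneg_right (mul_le_mul_of_nonneg_left hs h6'.le) hcG'.le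
    have h8 : (2 : ℝ) ^ N * (10 * ρ + 1) ≤ 2 ^ N * c := mul_le_mul_of_nonneg_left hq' h5'.le
    have : (10 : ℝ) * I.card < 2 ^ N * c := by nlinarith
    exact_mod_cast this
  · obtain ⟨d, v, hv1, hv2⟩ := h3 N r (by omega)
    exact ⟨d, fun x => v x.1, fun x => hv1 x.1, fun x y h => hv2 x.1 y.1 h.1⟩

end Pool.Agent.Helper14.FO
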