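import Pool.Agent.Helper14.FO.Defs2

/-! MP_190084_co: weighted random independent sets on a class. -/

set_option autoImplicit false

namespace Pool.Agent.Helper14.FO

open Finset

theorem cc2_one {ι : Type} [Fintype ι] [DecidableEq ι] (J : ι → Type) [∀ i, Fintype (J i)]
    (p : ∀ i, J i → ℝ) (hp : ∀ i, ∑ j, p i j = 1) : ∑ t : ∀ i, J i, ∏ i, p i (t i) = 1 := by
  have h := Finset.prod_univ_sum (fun i => (univ : Finset (J i))) (fun i j => p i j)
  rw [Fintype.piFinset_univ] at h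
  rw [← h]
  exact Finset.prod_eq_one fun i _ => hp i

theorem cc2_marg {ι : Type} [Fintype ι] [DecidableEq ι] (J : ι → Type) [∀ i, Fintype (J i)]
    (p : ∀ i, J i → ℝ) (hp : ∀ i, ∑ j, p i j = 1) (i0 : ι) (F : J i0 → ℝ) :
    ∑ t : ∀ i, J i, (∏ i, p i (t i)) * F (t i0) = ∑ j, p i0 j * F j := by
  have h := Finset.prod_univ_sum (fun i => (univ : Finset (J i)))
    (Function.update p i0 (fun j => p i0 j * F j))
  rw [Fintype.piFinset_univ] at h
  have h1 : ∀ t : ∀ i, J i, ∏ i, (Function.update p i0 (fun j => p i0 j * F j)) i (t i) =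
      (∏ i, p i (t i)) * F (t i0) := by
    intro t
    rw [← Finset.mul_prod_erase univ _ (mem_univ i0),
      ← Finset.mul_prod_erase univ (fun i => p i (t i)) (mem_univ i0), Function.update_self]
    have h2 : ∏ i ∈ univ.erase i0, (Function.update p i0 (fun j => p i0 j * F j)) i (t i) =
        ∏ i ∈ univ.erase i0, p i (t i) := by
      refine Finset.prod_congr rfl fun i hi => ?_
      rw [Function.update_of_ne (ne_of_mem_erase hi)]
    rw [h2]
    ring
  have h3 : ∏ i, ∑ j, (Function.update p i0 (fun j => p i0 j * F j)) i j =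
      ∑ j, p i0 j * F j := by
    rw [← Finset.mul_prod_erase univ _ (mem_univ i0), Function.update_self]
    have h2 : ∏ i ∈ univ.erase i0, ∑ j, (Function.update p i0 (fun j => p i0 j * F j)) i j = 1 := by
      refine Finset.prod_eq_one fun i hi => ?_
      rw [Function.update_of_ne (ne_of_mem_erase hi)]
      exact hp i
    rw [h2, mul_one]
  rw [← h3, h]
  exact Finset.sum_congr rfl fun t _ => (h1 t).symm

theorem st_CC2 (h : ST_IN2) : ST_CC2 := by
  intro V _ _ X ρ χa hρ hχa hX ι _ _ W Y χ hχ hY n U f T hT hadj hprod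
  classical
  choose J hJf p I hp0 hp1 hI hJc using hY
  -- probability of a choice for one coordinate
  obtain ⟨P, hP⟩ : ∃ P : (∀ i, J i) → ℝ, ∀ t, P t = ∏ i, p i (t i) := ⟨_, fun _ => rfl⟩
  have hP0 : ∀ t, 0 ≤ P t := fun t => by
    rw [hP]
    exact Finset.prod_nonneg fun i _ => hp0 i (t i)
  have hP1 : ∑ t, P t = 1 := by
    rw [Finset.sum_congr rfl fun t _ => hP t]
    exact cc2_one J p hp1
  -- good choices
  obtain ⟨g, hg⟩ : ∃ g : (Σ i, W i) → (∀ i, J i) → ℝ,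
      ∀ w t, g w t = if I w.1 (t w.1) w.2 = true then 1 else 0 := ⟨_, fun _ _ => rfl⟩
  have hg0 : ∀ w t, 0 ≤ g w t := fun w t => by
    rw [hg]
    split_ifs <;> norm_num
  obtain ⟨m, hm⟩ : ∃ m : (Σ i, W i) → ℝ, ∀ w, m w = ∑ t, P t * g w t := ⟨_, fun _ => rfl⟩
  have hm0 : ∀ w, 0 ≤ m w := fun w => by
    rw [hm]
    exact Finset.sum_nonneg fun t _ => mul_nonneg (hP0 t) (hg0 w t)
  have hmc : ∀ w, 1 ≤ χ w.1 * m w := by
    intro w
    have h1 := hJc w.1 w.2
    have h2 := cc2_marg J p hp1 w.1 (fun j => if I w.1 j w.2 = true then (1 : ℝ) else 0)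
    have h3 : m w = ∑ j, if I w.1 j w.2 = true then p w.1 j else 0 := by
      rw [hm]
      have h4 : ∀ t, P t * g w t = (∏ i, p i (t i)) *
          (if I w.1 (t w.1) w.2 = true then (1 : ℝ) else 0) := fun t => by rw [hP, hg]
      rw [Finset.sum_congr rfl fun t _ => h4 t, h2]
      refine Finset.sum_congr rfl fun j _ => ?_
      split_ifs <;> simp
    rw [h3]
    exact h1
  -- all coordinates
  obtain ⟨Q, hQ⟩ : ∃ Q : (Fin n → ∀ i, J i) → ℝ, ∀ ω, Q ω = ∏ k, P (ω k) := ⟨_, fun _ => rfl⟩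
  have hQ0 : ∀ ω, 0 ≤ Q ω := fun ω => by
    rw [hQ]
    exact Finset.prod_nonneg fun k _ => hP0 _
  have hQ1 : ∑ ω, Q ω = 1 := by
    rw [Finset.sum_congr rfl fun ω _ => hQ ω]
    exact cc2_one (fun _ : Fin n => ∀ i, J i) (fun _ => P) fun _ => hP1
  obtain ⟨R, hR⟩ : ∃ R : (Fin n → V) → ℝ, ∀ u, R u = ∏ i, ρ (u i) := ⟨_, fun _ => rfl⟩
  have hR0 : ∀ u, 0 ≤ R u := fun u => by
    rw [hR]
    exact Finset.prod_nonneg fun k _ => hρ _
  obtain ⟨S, hS⟩ : ∃ S : (Fin n → ∀ i, J i) → Finset (Fin n → V),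
      ∀ ω, S ω = U.filter fun u => ∀ k, I (f u k).1 (ω k (f u k).1) (f u k).2 = true :=
    ⟨_, fun _ => rfl⟩
  have hSi : ∀ ω, χa ^ n * ∑ u ∈ S ω, R u ≤ 1 := by
    intro ω
    have h1 := h V X ρ χa hρ hχa hX n (S ω) (by
      intro u hu v hv k hk
      rw [hS, mem_filter] at hu hv
      obtain ⟨i, i', x, y, e1, e2, e3⟩ := hadj u hu.1 v hv.1 ⟨k, hk⟩
      have a1 := hu.2 i
      have a2 := hv.2 i
      rw [e1] at a1
      rw [e2] at a2
      exact hI i' _ x y a1 a2 e3)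
    rw [Finset.sum_congr rfl fun u _ => hR u]
    exact h1
  have hind : ∀ (ω : Fin n → ∀ i, J i) (u : Fin n → V), (if ∀ k, I (f u k).1 (ω k (f u k).1) (f u k).2 = true then (1 : ℝ) else 0) =
      ∏ k, g (f u k) (ω k) := by
    intro ω u
    split_ifs with h1
    · symm
      refine Finset.prod_eq_one fun k _ => ?_
      rw [hg, if_pos (h1 k)]
    · push Not at h1
      obtain ⟨k, hk⟩ := h1
      symm
      refine Finset.prod_eq_zero (mem_univ k) ?_
      rw [hg, if_neg hk]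
  have hprob : ∀ u, ∑ ω, Q ω * ∏ k, g (f u k) (ω k) = ∏ k, m (f u k) := by
    intro u
    have h1 := Finset.prod_univ_sum (fun _ : Fin n => (univ : Finset (∀ i, J i)))
      (fun k t => P t * g (f u k) t)
    rw [Fintype.piFinset_univ] at h1
    rw [Finset.prod_congr rfl fun k _ => hm (f u k), h1]
    refine Finset.sum_congr rfl fun ω _ => ?_
    rw [hQ, Finset.prod_mul_distrib]
  have hge : ∀ u ∈ U, 1 ≤ T * ∏ k, m (f u k) := by
    intro u hu
    have h1 : (1 : ℝ) ≤ ∏ k, (χ (f u k).1 * m (f u k)) := by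
      have h2 : (1 : ℝ) = ∏ _k : Fin n, (1 : ℝ) := by simp
      rw [h2]
      exact Finset.prod_le_prod (fun _ _ => zero_le_one) fun k _ => hmc _
    rw [Finset.prod_mul_distrib] at h1
    exact h1.trans (mul_le_mul_of_nonneg_right (hprod u hu)
      (Finset.prod_nonneg fun k _ => hm0 _))
  have hsum : ∑ ω, Q ω * ∑ u ∈ S ω, R u = ∑ u ∈ U, R u * ∏ k, m (f u k) := by
    have h1 : ∀ ω, Q ω * ∑ u ∈ S ω, R u = ∑ u ∈ U, R u * (Q ω * ∏ k, g (f u k) (ω k)) := by
      intro ω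
      rw [hS, Finset.sum_filter, Finset.mul_sum]
      refine Finset.sum_congr rfl fun u _ => ?_
      rw [← hind]
      split_ifs <;> ring
    rw [Finset.sum_congr rfl fun ω _ => h1 ω, Finset.sum_comm]
    refine Finset.sum_congr rfl fun u _ => ?_
    rw [← Finset.mul_sum, hprob]
  have hle : χa ^ n * ∑ u ∈ U, R u * ∏ k, m (f u k) ≤ 1 := by
    rw [← hsum, Finset.mul_sum, ← hQ1]
    refine Finset.sum_le_sum fun ω _ => ?_
    have h1 := mul_le_mul_of_nonneg_left (hSi ω) (hQ0 ω)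
    rw [mul_one] at h1
    calc χa ^ n * (Q ω * ∑ u ∈ S ω, R u) = Q ω * (χa ^ n * ∑ u ∈ S ω, R u) := by ring
      _ ≤ Q ω := h1
  have hχn : (0 : ℝ) ≤ χa ^ n := pow_nonneg hχa.le n
  have hfin : ∑ u ∈ U, R u ≤ T * ∑ u ∈ U, R u * ∏ k, m (f u k) := by
    rw [Finset.mul_sum]
    refine Finset.sum_le_sum fun u hu => ?_
    have h1 := mul_le_mul_of_nonneg_left (hge u hu) (hR0 u)
    rw [mul_one] at h1
    calc R u ≤ R u * (T * ∏ k, m (f u k)) := h1
      _ = _ := by ring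
  rw [Finset.sum_congr rfl fun u _ => (hR u).symm]
  calc χa ^ n * ∑ u ∈ U, R u ≤ χa ^ n * (T * ∑ u ∈ U, R u * ∏ k, m (f u k)) :=
        mul_le_mul_of_nonneg_left hfin hχn
    _ = T * (χa ^ n * ∑ u ∈ U, R u * ∏ k, m (f u k)) := by ring
    _ ≤ T * 1 := mul_le_mul_of_nonneg_left hle hT
    _ = T := mul_one T

end Pool.Agent.Helper14.FO
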